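import Pool.Agent.X238.Asp.Final

/-!
# A nontrivial minimal system with the average shadowing property

There is a compact metric space `X` with more than one point and a continuous map `f : X → X` such
that `(X, f)` is minimal (`IsMinimalMap`: no nonempty closed `f`-invariant proper subset) and has
the average shadowing property (`HasASP`).

The system is a one-sided subshift of `{0, 1}^ℕ` with the usual metric. Let `W_0` be the set of all
words of the lengths one and two. The words of `W_(j+1)` are the words of the lengths `N` and
`N + 1`, `N = N_(j+1)`, which are concatenations of words of `W_j` with a fixed beginning `p_j`, the
concatenation of all words of `W_j`; the length of `p_j` is at most `2 ^ (-j) N`. The subshift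
consists of the sequences whose factors are, for all `j`, factors of concatenations of words of
`W_j`. It is minimal because of the words `p_j`. It has the average shadowing property since
words can be realigned at a cost of at most `N_j ^ 2 + 2 (N_j + 1)` letters (the two lengths of the
words of `W_j` are coprime), and since every infinite concatenation of words of `W_j` is, up to a
set of density at most `2 ^ (1 - j)`, a point of the subshift.
-/

namespace Pool.Agent.Results.MP_883b72_an.MinimalWithASP

open Pool.Agent.X238.Asp

/-- There is a nontrivial minimal system which has the average shadowing property. -/
theorem result : ∃ (X : Type) (_ : MetricSpace X) (_ : CompactSpace X) (_ : Nontrivial X)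
    (f : X → X), Continuous f ∧ IsMinimalMap f ∧ HasASP f :=
  main

end Pool.Agent.Results.MP_883b72_an.MinimalWithASP
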